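import Pool.Agent.Lib.MP_fa837f_gt.TS.Iface

/-!
PLA3: log-concavity in dimension at most two.
-/

set_option autoImplicit false

open MeasureTheory Set Filter Topology

namespace Pool.Agent.Lib.MP_fa837f_gt.TS.H50

theorem inf_conc {ι : Type} (T : Finset ι) (hT : T.Nonempty) (c : ι → ℝ) (s t : ι → ℝ) {a b : ℝ}
    (ha : 0 ≤ a) (hb : 0 ≤ b) (hab : a + b = 1) :
    a * T.inf' hT (fun j => s j - c j) + b * T.inf' hT (fun j => t j - c j) ≤
      T.inf' hT (fun j => (a • s + b • t) j - c j) := by
  refine Finset.le_inf' _ _ fun j hj => ?_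
  have h1 : T.inf' hT (fun j => s j - c j) ≤ s j - c j := Finset.inf'_le (f := fun j => s j - c j) hj
  have h2 : T.inf' hT (fun j => t j - c j) ≤ t j - c j := Finset.inf'_le (f := fun j => t j - c j) hj
  have h3 := mul_le_mul_of_nonneg_left h1 ha
  have h4 := mul_le_mul_of_nonneg_left h2 hb
  have h5 : (a • s + b • t) j - c j = a * (s j - c j) + b * (t j - c j) := by
    simp only [Pi.add_apply, Pi.smul_apply, smul_eq_mul]
    have : c j = (a + b) * c j := by rw [hab, one_mul]
    linear_combination -this
  rw [h5]
  linarith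

theorem abs_le_exp_iff {c u t : ℝ} (hc : c ≠ 0) :
    |c * u| ≤ Real.exp t ↔ |u| ≤ Real.exp (t - Real.log |c|) := by
  have h1 : 0 < |c| := abs_pos.2 hc
  rw [abs_mul, Real.exp_sub, Real.exp_log h1, le_div_iff₀ h1, mul_comm]

theorem le_exp_inf {ι : Type} (T : Finset ι) (hT : T.Nonempty) (f : ι → ℝ) (u : ℝ) :
    |u| ≤ Real.exp (T.inf' hT f) ↔ ∀ j ∈ T, |u| ≤ Real.exp (f j) := by
  constructor
  · intro h j hj
    exact h.trans (Real.exp_le_exp.2 (Finset.inf'_le f hj))
  · intro h
    obtain ⟨j, hj, h1⟩ := Finset.exists_mem_eq_inf' hT f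
    rw [h1]
    exact h j hj

/-- Dimension one. -/
theorem pla3_one (n : ℕ) (L : (Fin 1 → ℝ) →ₗ[ℝ] (Fin n → ℝ)) (hL : Function.Injective L) :
    ConcaveOn ℝ Set.univ (fun t : Fin n → ℝ => Real.log (Vol L t)) := by
  classical
  set v : Fin n → ℝ := L (fun _ => 1) with hv
  have hLy : ∀ y i, L y i = v i * y 0 := by
    intro y i
    have h1 : y = y 0 • (fun _ : Fin 1 => (1 : ℝ)) := by
      ext j
      fin_cases j
      simp
    rw [h1, map_smul]
    simp [hv, mul_comm]
  set S : Finset (Fin n) := Finset.univ.filter fun i => v i ≠ 0 with hS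
  have hSne : S.Nonempty := by
    by_contra hcon
    rw [Finset.not_nonempty_iff_eq_empty] at hcon
    have h1 : ∀ i, v i = 0 := by
      intro i
      by_contra hi
      have : i ∈ S := by simp [hS, hi]
      rw [hcon] at this
      simp at this
    have h2 : L (fun _ => 1) = L 0 := by
      rw [map_zero]
      ext i
      exact h1 i
    have h3 := congrFun (hL h2) 0
    simp at h3
  have hvol : ∀ t, Real.log (Vol L t) = Real.log 2 +
      S.inf' hSne (fun i => t i - Real.log |v i|) := by
    intro t
    set ρ := S.inf' hSne (fun i => t i - Real.log |v i|) with hρ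
    have h1 : {y : Fin 1 → ℝ | ∀ i, |L y i| ≤ Real.exp (t i)} =
        Set.Icc (fun _ => -Real.exp ρ) (fun _ => Real.exp ρ) := by
      ext y
      have h2 : (∀ i, |L y i| ≤ Real.exp (t i)) ↔ |y 0| ≤ Real.exp ρ := by
        rw [hρ, le_exp_inf]
        constructor
        · intro h i hi
          have hvi : v i ≠ 0 := by simpa [hS] using hi
          rw [← abs_le_exp_iff hvi, ← hLy]
          exact h i
        · intro h i
          rw [hLy]
          by_cases hvi : v i = 0
          · rw [hvi, zero_mul, abs_zero]
            exact (Real.exp_pos _).le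
          · rw [abs_le_exp_iff hvi]
            exact h i (by simp [hS, hvi])
      rw [Set.mem_ofPred_eq, h2, abs_le, Set.mem_Icc]
      constructor
      · rintro ⟨h3, h4⟩
        constructor <;> intro j <;> fin_cases j
        · exact h3
        · exact h4
      · rintro ⟨h3, h4⟩
        exact ⟨h3 0, h4 0⟩
    have h3 : Vol L t = 2 * Real.exp ρ := by
      unfold Vol
      rw [h1, Real.volume_Icc_pi]
      simp only [Finset.univ_unique, Finset.prod_singleton]
      rw [ENNReal.toReal_ofReal] <;> nlinarith [Real.exp_pos ρ]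
    rw [h3, Real.log_mul (by norm_num) (Real.exp_pos _).ne', Real.log_exp]
  refine ⟨convex_univ, fun s _ t _ a b ha hb hab => ?_⟩
  simp only [hvol, smul_eq_mul]
  have h1 := inf_conc S hSne (fun i => Real.log |v i|) s t ha hb hab
  have h2 : Real.log 2 = a * Real.log 2 + b * Real.log 2 := by rw [← add_mul, hab, one_mul]
  linarith

/-- Dimension two. -/
theorem pla3_two (h1 : Pla2Statement) (h2 : BasicStatement) (n : ℕ)
    (L : (Fin 2 → ℝ) →ₗ[ℝ] (Fin n → ℝ)) (hL : Function.Injective L) :
    ConcaveOn ℝ Set.univ (fun t : Fin n → ℝ => Real.log (Vol L t)) := by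
  classical
  set v : Fin n → ℝ := L ![1, 0] with hv
  set w : Fin n → ℝ := L ![0, 1] with hw
  have hLy : ∀ y i, L y i = v i * y 0 + w i * y 1 := by
    intro y i
    have h1 : y = y 0 • ![1, 0] + y 1 • ![0, 1] := by
      ext j
      fin_cases j <;> simp
    conv_lhs => rw [h1]
    rw [map_add, map_smul, map_smul]
    simp [hv, hw, mul_comm]
  let P : Finset (Fin n) → Prop := fun R => (∀ i ∈ R, v i ≠ 0 ∨ w i ≠ 0) ∧
    ∀ i ∈ R, ∀ j ∈ R, i ≠ j → v i * w j - w i * v j ≠ 0
  obtain ⟨R, hR, hmax⟩ := Finset.exists_max_image (Finset.univ.filter P) Finset.card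
    ⟨∅, by simp [P]⟩
  have hRP : P R := (Finset.mem_filter.1 hR).2
  have hrep : ∀ j, ∃ (i : Fin n) (c : ℝ), (v j ≠ 0 ∨ w j ≠ 0) →
      i ∈ R ∧ c ≠ 0 ∧ v j = c * v i ∧ w j = c * w i := by
    intro j
    by_cases hj : v j ≠ 0 ∨ w j ≠ 0
    · have h3 : ∃ i ∈ R, v i * w j - w i * v j = 0 := by
        by_cases hjR : j ∈ R
        · exact ⟨j, hjR, by ring⟩
        · by_contra hcon
          push Not at hcon
          have h4 : P (insert j R) := by
            refine ⟨fun i hi => ?_, fun i hi k hk hik => ?_⟩
            · rcases Finset.mem_insert.1 hi with rfl | hi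
              · exact hj
              · exact hRP.1 i hi
            · rcases Finset.mem_insert.1 hi with hi1 | hi1
              · rcases Finset.mem_insert.1 hk with hk1 | hk1
                · exact absurd (hi1.trans hk1.symm) hik
                · intro h5
                  rw [hi1] at h5
                  exact hcon k hk1 (by linarith)
              · rcases Finset.mem_insert.1 hk with hk1 | hk1
                · rw [hk1]
                  exact hcon i hi1
                · exact hRP.2 i hi1 k hk1 hik
          have h5 := hmax (insert j R) (Finset.mem_filter.2 ⟨Finset.mem_univ _, h4⟩)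
          rw [Finset.card_insert_of_notMem hjR] at h5
          omega
      obtain ⟨i, hi, h4⟩ := h3
      rcases hRP.1 i hi with h5 | h5
      · refine ⟨i, v j / v i, fun _ => ⟨hi, ?_, by field_simp, ?_⟩⟩
        · intro h6
          rw [div_eq_zero_iff] at h6
          rcases h6 with h6 | h6
          · rw [h6, mul_zero, sub_zero] at h4
            rcases mul_eq_zero.1 h4 with h7 | h7
            · exact h5 h7
            · rcases hj with hj | hj
              · exact hj h6
              · exact hj h7
          · exact h5 h6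
        · field_simp
          linarith
      · refine ⟨i, w j / w i, fun _ => ⟨hi, ?_, ?_, by field_simp⟩⟩
        · intro h6
          rw [div_eq_zero_iff] at h6
          rcases h6 with h6 | h6
          · rw [h6, mul_zero, zero_sub, neg_eq_zero] at h4
            rcases mul_eq_zero.1 h4 with h7 | h7
            · exact h5 h7
            · rcases hj with hj | hj
              · exact hj h7
              · exact hj h6
          · exact h5 h6
        · field_simp
          linarith
    · exact ⟨j, 0, fun h => absurd h hj⟩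
  choose r c hrc using hrep
  have hrself : ∀ i ∈ R, r i = i := by
    intro i hi
    have h3 := hrc i (hRP.1 i hi)
    by_contra hne
    refine hRP.2 (r i) h3.1 i hi hne ?_
    have e1 := h3.2.2.1
    have e2 := h3.2.2.2
    rw [e1, e2]
    ring
  -- two different rows
  have htwo : ∃ i ∈ R, ∃ j ∈ R, i ≠ j := by
    by_contra hcon
    push Not at hcon
    rcases R.eq_empty_or_nonempty with hR0 | ⟨i, hi⟩
    · have h3 : L ![1, 0] = L 0 := by
        rw [map_zero]
        ext j
        by_contra hj
        have h4 := (hrc j (Or.inl hj)).1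
        rw [hR0] at h4
        simp at h4
      have h5 := congrFun (hL h3) 0
      simp at h5
    · have h3 : L ![w i, -(v i)] = L 0 := by
        rw [map_zero]
        ext j
        rw [hLy]
        simp only [Matrix.cons_val_zero, Matrix.cons_val_one, Pi.zero_apply]
        by_cases hj : v j ≠ 0 ∨ w j ≠ 0
        · obtain ⟨h4, h5, h6, h7⟩ := hrc j hj
          rw [hcon _ h4 i hi] at h6 h7
          rw [h6, h7]
          ring
        · push Not at hj
          rw [hj.1, hj.2]
          ring
      have h5 := hL h3
      have h6 := congrFun h5 0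
      have h7 := congrFun h5 1
      simp only [Matrix.cons_val_zero, Matrix.cons_val_one, Pi.zero_apply, neg_eq_zero] at h6 h7
      rcases hRP.1 i hi with h8 | h8
      · exact h8 h7
      · exact h8 h6
  -- the classes
  set T : R → Finset (Fin n) := fun i => Finset.univ.filter fun j =>
    (v j ≠ 0 ∨ w j ≠ 0) ∧ r j = i.1 with hT
  have hTne : ∀ i : R, (T i).Nonempty := fun i =>
    ⟨i.1, by simp only [hT, Finset.mem_filter, Finset.mem_univ, true_and]
             exact ⟨hRP.1 i.1 i.2, hrself i.1 i.2⟩⟩
  set τ : (Fin n → ℝ) → R → ℝ := fun t i =>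
    (T i).inf' (hTne i) (fun j => t j - Real.log |c j|) with hτ
  set LR : (Fin 2 → ℝ) →ₗ[ℝ] (R → ℝ) := (LinearMap.funLeft ℝ ℝ (Subtype.val : R → Fin n)) ∘ₗ L
    with hLR
  have hLRy : ∀ y i, LR y i = v i.1 * y 0 + w i.1 * y 1 := by
    intro y i
    rw [← hLy]
    rfl
  have hinj : Function.Injective LR := by
    obtain ⟨i, hi, j, hj, hij⟩ := htwo
    rw [injective_iff_map_eq_zero]
    intro y hy
    have e1 : v i * y 0 + w i * y 1 = 0 := by
      rw [← hLRy y ⟨i, hi⟩, hy]
      rfl
    have e2 : v j * y 0 + w j * y 1 = 0 := by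
      rw [← hLRy y ⟨j, hj⟩, hy]
      rfl
    have hd := hRP.2 i hi j hj hij
    have e3 : (v i * w j - w i * v j) * y 0 = 0 := by linear_combination w j * e1 - w i * e2
    have e4 : (v i * w j - w i * v j) * y 1 = 0 := by linear_combination v i * e2 - v j * e1
    ext k
    fin_cases k
    · exact (mul_eq_zero.1 e3).resolve_left hd
    · exact (mul_eq_zero.1 e4).resolve_left hd
  have hbody : ∀ t, Vol L t = Vol LR (τ t) := by
    intro t
    unfold Vol
    congr 2
    ext y
    simp only [Set.mem_ofPred_eq]
    constructor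
    · intro h i
      rw [hLRy, hτ, le_exp_inf]
      intro j hj
      simp only [hT, Finset.mem_filter, Finset.mem_univ, true_and] at hj
      obtain ⟨h4, h5, h6, h7⟩ := hrc j hj.1
      rw [← abs_le_exp_iff h5]
      have h8 := h j
      rw [hLy, h6, h7, hj.2] at h8
      have h9 : c j * (v i.1 * y 0 + w i.1 * y 1) = c j * v i.1 * y 0 + c j * w i.1 * y 1 := by
        ring
      rw [h9]
      exact h8
    · intro h j
      rw [hLy]
      by_cases hj : v j ≠ 0 ∨ w j ≠ 0
      · obtain ⟨h4, h5, h6, h7⟩ := hrc j hj
        have h8 := h ⟨r j, h4⟩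
        rw [hLRy, hτ, le_exp_inf] at h8
        have h9 := h8 j (by
          simp only [hT, Finset.mem_filter, Finset.mem_univ, true_and]
          exact ⟨hj, trivial⟩)
        rw [← abs_le_exp_iff h5] at h9
        have h10 : c j * (v (r j) * y 0 + w (r j) * y 1) = v j * y 0 + w j * y 1 := by
          rw [h6, h7]
          ring
        rw [← h10]
        exact h9
      · push Not at hj
        rw [hj.1, hj.2]
        simp only [zero_mul, add_zero, abs_zero]
        exact (Real.exp_pos _).le
  have harea : ∀ s : R → ℝ, Vol LR s =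
      area (fun i : R => v i.1) (fun i : R => w i.1) (fun i => Real.exp (s i)) := by
    intro s
    unfold Vol area
    congr 1
    rw [← (volume_preserving_finTwoArrow ℝ).measure_preimage_equiv]
    congr 1
    ext y
    simp only [hLRy]
    rfl
  have hsimp : Simp (fun i : R => v i.1) (fun i : R => w i.1) := by
    obtain ⟨i, hi, j, hj, hij⟩ := htwo
    refine ⟨⟨⟨i, hi⟩, ⟨j, hj⟩, fun h => hij (congrArg Subtype.val h)⟩, fun i j hij => ?_⟩
    exact hRP.2 i.1 i.2 j.1 j.2 fun h => hij (Subtype.ext h)
  have hc := h1 R _ _ hsimp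
  obtain ⟨-, hpos, hmono, -⟩ := h2 2 R LR hinj
  refine ⟨convex_univ, fun s _ t _ a b ha hb hab => ?_⟩
  simp only [hbody]
  have h3 := hc.2 (Set.mem_univ (τ s)) (Set.mem_univ (τ t)) ha hb hab
  simp only [← harea] at h3
  refine h3.trans (Real.log_le_log (hpos _) (hmono _ _ fun i => ?_))
  simp only [hτ, Pi.add_apply, Pi.smul_apply, smul_eq_mul]
  exact inf_conc (T i) (hTne i) (fun j => Real.log |c j|) s t ha hb hab

theorem pla3 (h1 : Pla2Statement) (h2 : BasicStatement) : Pla3Statement := by
  intro k n L hL hk
  have h3 : k = 0 ∨ k = 1 ∨ k = 2 := by omega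
  rcases h3 with rfl | rfl | rfl
  · have h4 : ∀ t, Vol L t = 1 := by
      intro t
      have h5 : {y : Fin 0 → ℝ | ∀ i, |L y i| ≤ Real.exp (t i)} = Set.univ := by
        ext y
        simp only [Set.mem_ofPred_eq, Set.mem_univ, iff_true]
        intro i
        have h6 : y = 0 := Subsingleton.elim _ _
        rw [h6, map_zero, Pi.zero_apply, abs_zero]
        exact (Real.exp_pos _).le
      unfold Vol
      rw [h5, volume_pi, Measure.pi_univ]
      simp
    simp only [h4, Real.log_one]
    exact concaveOn_const 0 convex_univ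
  · exact pla3_one n L hL
  · exact pla3_two h1 h2 n L hL

end Pool.Agent.Lib.MP_fa837f_gt.TS.H50
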