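import Pool.Agent.Lib.MP_fa837f_gt.TS.Iface

/-!
TWV: the volumes of a two-sum.
-/

set_option autoImplicit false

open MeasureTheory Set Filter Topology

namespace Pool.Agent.Lib.MP_fa837f_gt.TS.H50

section

variable {E : Type} [NormedAddCommGroup E] [NormedSpace ℝ E] [FiniteDimensional ℝ E] {n : ℕ}

theorem body_closed (L : E →ₗ[ℝ] (Fin n → ℝ)) (t : Fin n → ℝ) :
    IsClosed {q : E | ∀ i, |L q i| ≤ Real.exp (t i)} := by
  have hc : Continuous L := L.continuous_of_finiteDimensional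
  have h1 : {q : E | ∀ i, |L q i| ≤ Real.exp (t i)} =
      ⋂ i, {q : E | |L q i| ≤ Real.exp (t i)} := by
    ext q
    simp
  rw [h1]
  exact isClosed_iInter fun i => isClosed_le (((continuous_apply i).comp hc).abs) continuous_const

theorem body_bdd (L : E →ₗ[ℝ] (Fin n → ℝ)) (hL : Function.Injective L) (t : Fin n → ℝ) :
    Bornology.IsBounded {q : E | ∀ i, |L q i| ≤ Real.exp (t i)} := by
  obtain ⟨K, hK0, hK⟩ := L.exists_antilipschitzWith (LinearMap.ker_eq_bot.2 hL)
  rw [isBounded_iff_forall_norm_le]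
  refine ⟨K * ∑ i, Real.exp (t i), fun q hq => ?_⟩
  have h1 : ‖q‖ ≤ K * ‖L q‖ := by
    have h2 := hK.le_mul_dist q 0
    rwa [map_zero, dist_zero_right, dist_zero_right] at h2
  refine h1.trans (mul_le_mul_of_nonneg_left ?_ K.2)
  refine (pi_norm_le_iff_of_nonneg (Finset.sum_nonneg fun i _ => (Real.exp_pos _).le)).2
    fun i => ?_
  rw [Real.norm_eq_abs]
  exact (hq i).trans (Finset.single_le_sum (f := fun i => Real.exp (t i))
    (fun i _ => (Real.exp_pos _).le) (Finset.mem_univ i))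

end

/-- The sections have finite volume. -/
theorem sec_fin {k n : ℕ} (L : (ℝ × (Fin k → ℝ)) →ₗ[ℝ] (Fin n → ℝ)) (hL : Function.Injective L)
    (t : Fin n → ℝ) (z : ℝ) :
    volume {y : Fin k → ℝ | ∀ i, |L (z, y) i| ≤ Real.exp (t i)} ≠ ⊤ := by
  have h1 := body_bdd L hL t
  rw [isBounded_iff_forall_norm_le] at h1
  obtain ⟨C, hC⟩ := h1
  have h2 : Bornology.IsBounded {y : Fin k → ℝ | ∀ i, |L (z, y) i| ≤ Real.exp (t i)} := by
    rw [isBounded_iff_forall_norm_le]
    exact ⟨C, fun y hy => (norm_snd_le (z, y)).trans (hC _ hy)⟩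
  exact h2.measure_lt_top.ne

/-- Fubini. -/
theorem fub {F : Type} [MeasureSpace F] [SFinite (volume : Measure F)] {S : Set (ℝ × F)}
    (hS : MeasurableSet S) (hf : ∀ z, volume (Prod.mk z ⁻¹' S) ≠ ⊤) :
    (volume S).toReal = ∫ z, (volume (Prod.mk z ⁻¹' S)).toReal := by
  rw [Measure.volume_eq_prod, Measure.prod_apply hS, integral_toReal]
  · exact (measurable_measure_prodMk_left hS).aemeasurable
  · exact Eventually.of_forall fun z => (hf z).lt_top

theorem box_meas {n : ℕ} (t : Fin n → ℝ) :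
    MeasurableSet {x : EuclideanSpace ℝ (Fin n) | ∀ i, |x i| ≤ Real.exp (t i)} := by
  have h1 : {x : EuclideanSpace ℝ (Fin n) | ∀ i, |x i| ≤ Real.exp (t i)} =
      ⋂ i, {x : EuclideanSpace ℝ (Fin n) | |x i| ≤ Real.exp (t i)} := by
    ext q
    simp
  rw [h1]
  refine (isClosed_iInter fun i => isClosed_le ?_ continuous_const).measurableSet
  exact (EuclideanSpace.proj i : EuclideanSpace ℝ (Fin n) →L[ℝ] ℝ).continuous.abs

/-- The parametrisation of a proper subspace. -/
theorem twv_one (h1 : ParStatement) (h2 : NormStatement) {n : ℕ}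
    (H : Submodule ℝ (EuclideanSpace ℝ (Fin (n + 1)))) (hH : Proper H) :
    ∃ (k : ℕ) (Φ : (ℝ × (Fin k → ℝ)) ≃ₗ[ℝ] H) (L : (ℝ × (Fin k → ℝ)) →ₗ[ℝ] (Fin n → ℝ)) (c : ℝ),
      (∀ q, ((Φ q : H) : EuclideanSpace ℝ (Fin (n + 1))) = pcons q.1 (L q)) ∧
      Function.Injective L ∧ 0 < c ∧
      ∀ t ρ, cubeVol H (Fin.cons ρ t : Fin (n + 1) → ℝ) = c * slab L t ρ := by
  obtain ⟨k, Φ, hΦ⟩ := h2 n H hH.1
  set L : (ℝ × (Fin k → ℝ)) →ₗ[ℝ] (Fin n → ℝ) :=
    { toFun := fun q i => ((Φ q : H) : EuclideanSpace ℝ (Fin (n + 1))) i.succ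
      map_add' := fun q q' => by
        ext i
        simp
      map_smul' := fun a q => by
        ext i
        simp } with hLdef
  have hLq : ∀ q i, L q i = ((Φ q : H) : EuclideanSpace ℝ (Fin (n + 1))) i.succ :=
    fun q i => rfl
  have hΦL : ∀ q, ((Φ q : H) : EuclideanSpace ℝ (Fin (n + 1))) = pcons q.1 (L q) := by
    intro q
    ext i
    refine Fin.cases ?_ (fun j => ?_) i
    · rw [hΦ]
      simp [pcons]
    · rw [← hLq]
      simp [pcons]
  have hinj : Function.Injective L := by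
    rw [injective_iff_map_eq_zero]
    intro q hq
    have e1 := hΦL q
    rw [hq] at e1
    have e2 : q.1 = 0 := by
      by_contra hne
      apply hH.2
      have e3 : pcons 1 (0 : Fin n → ℝ) = q.1⁻¹ • pcons q.1 (0 : Fin n → ℝ) := by
        ext i
        refine Fin.cases ?_ (fun j => ?_) i
        · simp [pcons, hne]
        · simp [pcons]
      rw [e3, ← e1]
      exact H.smul_mem _ (Φ q).2
    have e4 : (Φ q : H) = 0 := by
      ext i
      rw [e1, e2]
      refine Fin.cases ?_ (fun j => ?_) i <;> simp [pcons]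
    exact (map_eq_zero_iff Φ Φ.injective).1 e4
  have : (volume : Measure (ℝ × (Fin k → ℝ))).IsAddHaarMeasure := by
    rw [Measure.volume_eq_prod]
    infer_instance
  obtain ⟨c, hc, hpar⟩ := h1 (n + 1) H (ℝ × (Fin k → ℝ)) volume Φ
  refine ⟨k, Φ, L, c, hΦL, hinj, hc, fun t ρ => ?_⟩
  unfold cubeVol
  rw [hpar _ (box_meas _)]
  congr 1
  have e1 : {e | ((Φ e : H) : EuclideanSpace ℝ (Fin (n + 1))) ∈
      {x : EuclideanSpace ℝ (Fin (n + 1)) | ∀ i, |x i| ≤
        Real.exp ((Fin.cons ρ t : Fin (n + 1) → ℝ) i)}} =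
      {q : ℝ × (Fin k → ℝ) | |q.1| ≤ Real.exp ρ ∧ ∀ i, |L q i| ≤ Real.exp (t i)} := by
    ext q
    simp only [Set.mem_ofPred_eq, hΦL, Fin.forall_fin_succ]
    simp [pcons]
  have hm : MeasurableSet {q : ℝ × (Fin k → ℝ) | |q.1| ≤ Real.exp ρ ∧
      ∀ i, |L q i| ≤ Real.exp (t i)} :=
    ((isClosed_le continuous_fst.abs continuous_const).inter (body_closed L t)).measurableSet
  rw [e1, fub hm]
  · unfold slab
    rw [intervalIntegral.integral_of_le (by linarith [Real.exp_pos ρ]),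
      ← integral_Icc_eq_integral_Ioc, ← integral_indicator measurableSet_Icc]
    congr 1
    ext z
    by_cases hz : z ∈ Icc (-Real.exp ρ) (Real.exp ρ)
    · rw [indicator_of_mem hz]
      unfold sec
      congr 2
      ext y
      simp only [Set.mem_preimage, Set.mem_ofPred_eq, and_iff_right_iff_imp]
      exact fun _ => abs_le.2 hz
    · rw [indicator_of_notMem hz]
      have e2 : Prod.mk z ⁻¹' {q : ℝ × (Fin k → ℝ) | |q.1| ≤ Real.exp ρ ∧
          ∀ i, |L q i| ≤ Real.exp (t i)} = ∅ := by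
        ext y
        simp only [Set.mem_preimage, Set.mem_ofPred_eq, Set.mem_empty_iff_false, iff_false]
        exact fun h => hz (abs_le.1 h.1)
      rw [e2]
      simp
  · intro z
    refine ne_top_of_le_ne_top (sec_fin L hinj t z) (measure_mono fun y hy => ?_)
    exact hy.2

theorem twv (h1 : ParStatement) (h2 : NormStatement) : TwvStatement := by
  intro n m H₁ H₂ hH₁ hH₂
  obtain ⟨k, Φ, L, c₁, hΦ, hL, hc₁, hv₁⟩ := twv_one h1 h2 H₁ hH₁
  obtain ⟨l, Φ', M, c₂, hΦ', hM, hc₂, hv₂⟩ := twv_one h1 h2 H₂ hH₂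
  -- the parametrisation of the two-sum
  set Ψ₀ : (ℝ × ((Fin k → ℝ) × (Fin l → ℝ))) →ₗ[ℝ] EuclideanSpace ℝ (Fin (n + m)) :=
    { toFun := fun q => WithLp.toLp 2 (Fin.append (L (q.1, q.2.1)) (M (q.1, q.2.2)))
      map_add' := fun q q' => by
        have e1 : L ((q + q').1, (q + q').2.1) = L (q.1, q.2.1) + L (q'.1, q'.2.1) := by
          rw [← map_add]
          rfl
        have e2 : M ((q + q').1, (q + q').2.2) = M (q.1, q.2.2) + M (q'.1, q'.2.2) := by
          rw [← map_add]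
          rfl
        rw [e1, e2]
        ext i
        refine Fin.addCases (fun j => ?_) (fun j => ?_) i <;> simp
      map_smul' := fun a q => by
        have e1 : L ((a • q).1, (a • q).2.1) = a • L (q.1, q.2.1) := by
          rw [← map_smul]
          rfl
        have e2 : M ((a • q).1, (a • q).2.2) = a • M (q.1, q.2.2) := by
          rw [← map_smul]
          rfl
        rw [e1, e2]
        ext i
        refine Fin.addCases (fun j => ?_) (fun j => ?_) i <;> simp } with hΨ₀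
  have hA : ∀ q i, Ψ₀ q (Fin.castAdd m i) = L (q.1, q.2.1) i := by
    intro q i
    simp [hΨ₀]
  have hB : ∀ q j, Ψ₀ q (Fin.natAdd n j) = M (q.1, q.2.2) j := by
    intro q j
    simp [hΨ₀]
  have hmem : ∀ q, Ψ₀ q ∈ twoSum H₁ H₂ := by
    intro q
    refine ⟨q.1, ?_, ?_⟩
    · simp only [hA]
      rw [← hΦ (q.1, q.2.1)]
      exact (Φ _).2
    · simp only [hB]
      rw [← hΦ' (q.1, q.2.2)]
      exact (Φ' _).2
  set Ψ₁ : (ℝ × ((Fin k → ℝ) × (Fin l → ℝ))) →ₗ[ℝ] twoSum H₁ H₂ :=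
    LinearMap.codRestrict _ Ψ₀ hmem with hΨ₁
  have hbij : Function.Bijective Ψ₁ := by
    constructor
    · rw [injective_iff_map_eq_zero]
      intro q hq
      have e0 : Ψ₀ q = 0 := congrArg Subtype.val hq
      have e1 : L (q.1, q.2.1) = 0 := by
        ext i
        rw [← hA, e0]
        rfl
      have e2 : M (q.1, q.2.2) = 0 := by
        ext i
        rw [← hB, e0]
        rfl
      have e3 := (map_eq_zero_iff L hL).1 e1
      have e4 := (map_eq_zero_iff M hM).1 e2
      exact Prod.ext (Prod.mk_eq_zero.1 e3).1 (Prod.ext (Prod.mk_eq_zero.1 e3).2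
        (Prod.mk_eq_zero.1 e4).2)
    · rintro ⟨x, z, hx, hy⟩
      obtain ⟨q, hq⟩ := Φ.surjective ⟨_, hx⟩
      obtain ⟨q', hq'⟩ := Φ'.surjective ⟨_, hy⟩
      have e1 : pcons q.1 (L q) = pcons z (fun i => x (Fin.castAdd m i)) := by
        rw [← hΦ, hq]
      have e2 : pcons q'.1 (M q') = pcons z (fun j => x (Fin.natAdd n j)) := by
        rw [← hΦ', hq']
      have e3 : q.1 = z := by
        have := congrArg (fun v : EuclideanSpace ℝ (Fin (n + 1)) => v 0) e1
        simpa [pcons] using this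
      have e4 : q'.1 = z := by
        have := congrArg (fun v : EuclideanSpace ℝ (Fin (m + 1)) => v 0) e2
        simpa [pcons] using this
      refine ⟨(z, q.2, q'.2), Subtype.ext ?_⟩
      show Ψ₀ (z, q.2, q'.2) = x
      ext i
      refine Fin.addCases (fun j => ?_) (fun j => ?_) i
      · rw [hA]
        have := congrArg (fun v : EuclideanSpace ℝ (Fin (n + 1)) => v j.succ) e1
        simp only [pcons, Fin.cons_succ] at this
        rw [← this, ← e3]
      · rw [hB]
        have := congrArg (fun v : EuclideanSpace ℝ (Fin (m + 1)) => v j.succ) e2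
        simp only [pcons, Fin.cons_succ] at this
        rw [← this, ← e4]
  have : (volume : Measure ((Fin k → ℝ) × (Fin l → ℝ))).IsAddHaarMeasure := by
    have h3 := @Measure.prod.instIsAddHaarMeasure (Fin k → ℝ) _ _ _ (Fin l → ℝ) _ _ _
      volume volume _ _ _ _
    exact h3
  have : (volume : Measure (ℝ × ((Fin k → ℝ) × (Fin l → ℝ)))).IsAddHaarMeasure := by
    have h3 := @Measure.prod.instIsAddHaarMeasure ℝ _ _ _ ((Fin k → ℝ) × (Fin l → ℝ)) _ _ _
      volume volume _ _ _ _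
    exact h3
  obtain ⟨c₃, hc₃, hpar⟩ := h1 (n + m) (twoSum H₁ H₂) (ℝ × ((Fin k → ℝ) × (Fin l → ℝ))) volume
    (LinearEquiv.ofBijective Ψ₁ hbij)
  refine ⟨k, l, L, M, c₁, c₂, c₃, hL, hM, hc₁, hc₂, hc₃, hv₁, hv₂, fun t s => ?_⟩
  unfold cubeVol
  rw [hpar _ (box_meas _)]
  congr 1
  set A : ℝ → Set (Fin k → ℝ) := fun z => {y | ∀ i, |L (z, y) i| ≤ Real.exp (t i)} with hAd
  set B : ℝ → Set (Fin l → ℝ) := fun z => {y | ∀ i, |M (z, y) i| ≤ Real.exp (s i)} with hBd
  have e1 : {e | ((LinearEquiv.ofBijective Ψ₁ hbij e : twoSum H₁ H₂) :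
      EuclideanSpace ℝ (Fin (n + m))) ∈ {x : EuclideanSpace ℝ (Fin (n + m)) | ∀ i, |x i| ≤
        Real.exp ((Fin.append t s : Fin (n + m) → ℝ) i)}} =
      {q : ℝ × ((Fin k → ℝ) × (Fin l → ℝ)) | q.2.1 ∈ A q.1 ∧ q.2.2 ∈ B q.1} := by
    ext q
    have e2 : ((LinearEquiv.ofBijective Ψ₁ hbij q : twoSum H₁ H₂) :
      EuclideanSpace ℝ (Fin (n + m))) = Ψ₀ q := rfl
    simp only [Set.mem_ofPred_eq, e2, hAd, hBd]
    constructor
    · intro h
      refine ⟨fun i => ?_, fun j => ?_⟩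
      · have := h (Fin.castAdd m i)
        rwa [hA, Fin.append_left] at this
      · have := h (Fin.natAdd n j)
        rwa [hB, Fin.append_right] at this
    · rintro ⟨h3, h4⟩ i
      refine Fin.addCases (fun j => ?_) (fun j => ?_) i
      · rw [hA, Fin.append_left]
        exact h3 j
      · rw [hB, Fin.append_right]
        exact h4 j
  have hsec : ∀ z, Prod.mk z ⁻¹' {q : ℝ × ((Fin k → ℝ) × (Fin l → ℝ)) | q.2.1 ∈ A q.1 ∧
      q.2.2 ∈ B q.1} = A z ×ˢ B z := fun z => rfl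
  have hm : MeasurableSet {q : ℝ × ((Fin k → ℝ) × (Fin l → ℝ)) | q.2.1 ∈ A q.1 ∧
      q.2.2 ∈ B q.1} := by
    have h3 : IsClosed {q : ℝ × ((Fin k → ℝ) × (Fin l → ℝ)) | q.2.1 ∈ A q.1} :=
      (body_closed L t).preimage (f := fun q : ℝ × ((Fin k → ℝ) × (Fin l → ℝ)) => (q.1, q.2.1))
        (continuous_fst.prodMk (continuous_fst.comp continuous_snd))
    have h4 : IsClosed {q : ℝ × ((Fin k → ℝ) × (Fin l → ℝ)) | q.2.2 ∈ B q.1} :=
      (body_closed M s).preimage (f := fun q : ℝ × ((Fin k → ℝ) × (Fin l → ℝ)) => (q.1, q.2.2))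
        (continuous_fst.prodMk (continuous_snd.comp continuous_snd))
    exact (h3.inter h4).measurableSet
  have hprod : ∀ z, volume (A z ×ˢ B z) = volume (A z) * volume (B z) := by
    intro z
    rw [Measure.volume_eq_prod, Measure.prod_prod]
  rw [e1, fub hm]
  · refine integral_congr_ae (Eventually.of_forall fun z => ?_)
    simp only [hsec, hprod, ENNReal.toReal_mul]
    rfl
  · intro z
    rw [hsec, hprod]
    exact ENNReal.mul_ne_top (sec_fin L hL t z) (sec_fin M hM s z)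

end Pool.Agent.Lib.MP_fa837f_gt.TS.H50
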